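import Mathlib
import Pool.Agent.H966R3.C33Defs
import Pool.Agent.H966R3.C33Final

/-!
# The maximum size of a `C_3[3]`-set in `{1, …, n}` is asymptotically `n ^ (2/3)`

Lower bound: for a prime `p` the group `H` of the `x ∈ 𝔽_{p⁴}^*` with `x ^ (p² + 1) ∈ 𝔽_p` is
cyclic of order `(p² + 1)(p - 1)` (it acts regularly on the nonzero singular vectors of an
elliptic quadratic form), and `{x ∈ H : Tr (γ x) = 1}` is a `C_3[3]`-set in it, of size at least
`p² - p` for a suitable `γ`. Upper bound: the links of the edges of a `K_{3,3}`-free bipartite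
graph are `C_4`-free (Füredi's constant for the Zarankiewicz problem), applied to few translates.
-/

set_option autoImplicit false

namespace Pool.Agent.Results.MP_5edfab_co.Asymptotics

open Filter Topology

/-- `A ⊆ Γ` is a `C_h[g]`-set: there are no `h`-element set `X` and no `g` distinct elements `k`
(forming the set `K`) with all the translates `X + k` inside `A`. -/
def IsCSet {Γ : Type*} [AddCommGroup Γ] (h g : ℕ) (A : Set Γ) : Prop :=
  ¬ ∃ X K : Finset Γ, X.card = h ∧ K.card = g ∧ ∀ k ∈ K, ∀ x ∈ X, x + k ∈ A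

/-- `F(n)`: the largest size of a `C_3[3]`-set in `{1, …, n}`. -/
noncomputable def F (n : ℕ) : ℕ :=
  sSup {a | ∃ A : Finset ℤ, A ⊆ Finset.Icc 1 (n : ℤ) ∧ IsCSet 3 3 (A : Set ℤ) ∧ A.card = a}

/-- `F(n) = (1 + o(1)) n ^ (2/3)`; moreover `F(p³) ≥ p² - p` for every prime `p`, and for all `n`
and `u ≥ 1` one has the explicit upper inequality of Füredi type. -/
theorem result :
    Tendsto (fun n : ℕ => (F n : ℝ) / (n : ℝ) ^ (2 / 3 : ℝ)) atTop (𝓝 1) ∧
    (∀ p n : ℕ, p.Prime → p ^ 3 ≤ n → p ^ 2 - p ≤ F n) ∧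
    (∀ n u : ℕ, 0 < u → (F n : ℝ) ^ 2 ≤
      ((n : ℝ) + u) * (Real.sqrt (F n) + 1 + F n / Real.sqrt u + F n / (u : ℝ))) :=
  ⟨Pool.Agent.H966R3.C33.main, Pool.Agent.H966R3.C33.F_lower, Pool.Agent.H966R3.C33.F_ineq⟩

end Pool.Agent.Results.MP_5edfab_co.Asymptotics
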